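import Pool.Agent.helper93.FR.Spec

/-!
Row Ref of FR: choice of the reference copies and the exceptional set T.
-/

namespace Pool.Agent.helper83.FR

open Matrix BigOperators Pool.Agent.helper93.FR

section gen

variable {r n : ℕ}

/-- The partial isometry from the reference copy to the copy of q. -/
def Em (κ : Fin n → Fin r) (ref : Fin n → Fin n) (q : Fin n) : Matrix (Fin n) (Fin n) ℂ :=
  fun s t => if κ s = κ q ∧ ref s = t then 1 else 0

theorem Em_mul (κ : Fin n → Fin r) (ref : Fin n → Fin n) (q : Fin n)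
    (Y : Matrix (Fin n) (Fin n) ℂ) (s t : Fin n) :
    (Em κ ref q * Y) s t = if κ s = κ q then Y (ref s) t else 0 := by
  rw [Matrix.mul_apply]
  by_cases h : κ s = κ q
  · rw [if_pos h, Finset.sum_eq_single (ref s)]
    · simp [Em, h]
    · intro b _ hb
      have hb' : ¬ (ref s = b) := fun e => hb e.symm
      simp [Em, hb']
    · simp
  · rw [if_neg h]
    apply Finset.sum_eq_zero
    intro x _
    simp [Em, h]

theorem mul_Em (κ : Fin n → Fin r) (ref : Fin n → Fin n) (q : Fin n)
    (Y : Matrix (Fin n) (Fin n) ℂ) (s : Fin n)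
    (hinj : ∀ u v, κ u = κ q → κ v = κ q → ref u = ref v → u = v) (u : Fin n)
    (hu : κ u = κ q) : (Y * Em κ ref q) s (ref u) = Y s u := by
  rw [Matrix.mul_apply, Finset.sum_eq_single u]
  · simp [Em, hu]
  · intro b _ hb
    have h : ¬ (κ b = κ q ∧ ref b = ref u) := fun h => hb (hinj b u h.1 hu h.2)
    simp only [Em, if_neg h, mul_zero]
  · simp

theorem mul_Em_zero (κ : Fin n → Fin r) (ref : Fin n → Fin n) (q : Fin n)
    (Y : Matrix (Fin n) (Fin n) ℂ) (s t : Fin n)
    (h : ∀ u, κ u = κ q → ref u ≠ t) : (Y * Em κ ref q) s t = 0 := by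
  rw [Matrix.mul_apply]
  apply Finset.sum_eq_zero
  intro u _
  have h : ¬ (κ u = κ q ∧ ref u = t) := fun e => h u e.1 e.2
  simp only [Em, if_neg h, mul_zero]

end gen

theorem Ref : Ref_stmt := by
  classical
  intro r k N o st hN n γ τ a κ β α X D hF hA Λ hΛ hbad
  -- the reference copies
  have hch : ∀ b : Fin τ.m, (∃ p, β p = b) →
      ∃ p0, β p0 = b ∧ ∀ p, β p = b → dl a (a p0) ≤ dl a (a p) := by
    rintro b ⟨p, hp⟩
    obtain ⟨p0, h0, h1⟩ := Finset.exists_min_image
      (Finset.univ.filter fun p => β p = b) (fun p => dl a (a p))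
      ⟨p, Finset.mem_filter.2 ⟨Finset.mem_univ _, hp⟩⟩
    refine ⟨p0, (Finset.mem_filter.1 h0).2, fun p' hp' => h1 p' ?_⟩
    exact Finset.mem_filter.2 ⟨Finset.mem_univ _, hp'⟩
  choose f hf1 hf2 using hch
  have hfc : ∀ b b' (h : ∃ p, β p = b) (h' : ∃ p, β p = b'), b = b' → f b h = f b' h' := by
    intro b b' h h' e
    subst e
    rfl
  have hr : ∀ p, ∃ q, κ q = κ (f (β p) ⟨p, rfl⟩) ∧ α q = α p := by
    intro p
    refine hA.surj _ (α p) ?_
    rw [hf1]
    exact hA.αlt p
  choose ref hr1 hr2 using hr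
  have rβ : ∀ p, β (ref p) = β p := fun p => (hA.κβ _ _ (hr1 p)).trans (hf1 _ _)
  have rκ : ∀ p q, β p = β q → κ (ref p) = κ (ref q) := by
    intro p q h
    rw [hr1, hr1, hfc _ _ _ _ h]
  have hmin : ∀ q, dl a (a (ref q)) ≤ dl a (a q) := by
    intro q
    rw [hA.κa _ _ (hr1 q)]
    exact hf2 _ _ q rfl
  have hinj : ∀ q u v, κ u = κ q → κ v = κ q → ref u = ref v → u = v := by
    intro q u v hu hv h
    refine hA.inj u v (hu.trans hv.symm) ?_
    rw [← hr2 u, ← hr2 v, h]
  -- the intertwiner commutes with every matrix of the adapted form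
  have hcomm : ∀ (q : Fin n) (F : Fin τ.m → Fin r → Fin r → ℂ) (Y : Matrix (Fin n) (Fin n) ℂ),
      (∀ s t, Y s t = if κ s = κ t then F (β t) (α s) (α t) else 0) →
      Em κ ref q * Y = Y * Em κ ref q := by
    intro q F Y hY
    ext s t
    rw [Em_mul]
    by_cases ht : κ t = κ (ref q)
    · -- t = ref u
      have hβt : β t = β q := (hA.κβ _ _ ht).trans (rβ q)
      obtain ⟨u, hu1, hu2⟩ := hA.surj q (α t) (by rw [← hβt]; exact hA.αlt t)
      have hβu : β u = β q := hA.κβ _ _ hu1
      have hru : ref u = t := by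
        refine hA.inj _ _ ?_ ?_
        · rw [rκ u q hβu, ht]
        · rw [hr2, hu2]
      rw [← hru, mul_Em κ ref q Y s (hinj q) u hu1, hY s u]
      by_cases hs : κ s = κ q
      · have hβs : β s = β q := hA.κβ _ _ hs
        rw [if_pos hs, if_pos (hs.trans hu1.symm), hY, if_pos (rκ s u (hβs.trans hβu.symm)),
          rβ, hr2, hr2]
      · rw [if_neg hs, if_neg]
        intro e
        exact hs (e.trans hu1)
    · rw [mul_Em_zero]
      · by_cases hs : κ s = κ q
        · rw [if_pos hs, hY, if_neg]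
          intro e
          exact ht (e.symm.trans (rκ s q (hA.κβ _ _ hs)))
        · rw [if_neg hs]
      · intro u hu e
        apply ht
        rw [← e]
        exact rκ u q (hA.κβ _ _ hu)
  have hsint : ∀ q, SInt (fun j => X (γ j)) (fun j => X (γ j)) (Em κ ref q) := by
    intro q j
    refine ⟨hcomm q (fun b x y => τ.e b j x y) _ (hA.form j), ?_⟩
    refine hcomm q (fun b x y => star (τ.e b j y x)) _ ?_
    intro s t
    have e : (X (γ j))ᴴ s t = star (X (γ j) t s) := Matrix.conjTranspose_apply _ _ _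
    refine e.trans ?_
    rw [hA.form j t s]
    by_cases h : κ s = κ t
    · rw [if_pos h, if_pos h.symm, hA.κβ _ _ h]
    · rw [if_neg h, if_neg (fun e => h e.symm), star_zero]
  have hsupp : ∀ q s t, Em κ ref q s t ≠ 0 → a s = a q ∧ a t = a (ref q) := by
    intro q s t h
    by_cases hc : κ s = κ q ∧ ref s = t
    · refine ⟨hA.κa _ _ hc.1, ?_⟩
      rw [← hc.2]
      exact hA.κa _ _ (rκ s q (hA.κβ _ _ hc.1))
    · exact absurd (if_neg hc) h
  -- the exceptional set
  set T : Finset (Fin r × Fin r) := Finset.univ.filter fun z =>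
    ∃ q, κ q = z.1 ∧ ¬ good a X γ (a (ref q)) (a q) z.2 with hT
  have memT : ∀ q i, (κ q, i) ∈ T ↔ ¬ good a X γ (a (ref q)) (a q) i := by
    intro q i
    rw [hT, Finset.mem_filter]
    constructor
    · rintro ⟨-, q', h1, h2⟩
      have e1 : a q' = a q := hA.κa _ _ h1
      have e2 : a (ref q') = a (ref q) := hA.κa _ _ (rκ q' q (hA.κβ _ _ h1))
      rw [e1, e2] at h2
      exact h2
    · intro h
      exact ⟨Finset.mem_univ _, q, rfl, h⟩
  set B : Fin n → Finset (Fin r) := fun q => Finset.univ.filter fun i => (κ q, i) ∈ T with hB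
  have hdl1 : ∀ q, 1 ≤ dl a (a q) := by
    intro q
    exact Finset.card_pos.2 ⟨q, Finset.mem_filter.2 ⟨Finset.mem_univ _, rfl⟩⟩
  have hBc : ∀ q, ((B q).card : ℝ) ≤ 8 * Λ * dl a (a q) := by
    intro q
    have h1 : (B q).card ≤ nbad a X γ (a (ref q)) (a q) := by
      unfold nbad
      apply Finset.card_le_card
      intro i hi
      have hi' := (Finset.mem_filter.1 hi).2
      exact Finset.mem_filter.2 ⟨Finset.mem_univ _, (memT q i).1 hi'⟩
    have h2 := hbad (a (ref q)) (a q)
    have h3 : ((dl a (a (ref q)) : ℕ) : ℝ) ≤ dl a (a q) := by exact_mod_cast hmin q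
    have h4 : (1 : ℝ) ≤ dl a (a q) := by exact_mod_cast hdl1 q
    calc ((B q).card : ℝ) ≤ nbad a X γ (a (ref q)) (a q) := by exact_mod_cast h1
      _ ≤ Λ * (2 * (dl a (a (ref q)) + dl a (a q) : ℕ) + 4) := h2
      _ ≤ Λ * (8 * dl a (a q)) := by
          apply mul_le_mul_of_nonneg_left _ hΛ
          push_cast
          linarith
      _ = 8 * Λ * dl a (a q) := by ring
  set S : Finset (Fin n × Fin n) := (Finset.univ : Finset (Fin n × Fin n)).filter
    fun z => a z.1 = a z.2 with hS
  have hSr : (S.card : ℝ) ≤ r := by exact_mod_cast hF.sq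
  have hsum : (∑ q, dl a (a q)) = S.card := by
    rw [hS, Finset.card_filter, Fintype.sum_prod_type_right]
    refine Finset.sum_congr rfl fun q _ => ?_
    rw [dl, Finset.card_filter]
  have hsumR : (∑ q, (dl a (a q) : ℝ)) = S.card := by exact_mod_cast hsum
  have hdlr : ∀ q, (dl a (a q) : ℝ) ≤ Real.sqrt r := by
    intro q
    apply Real.le_sqrt_of_sq_le
    have h1 : dl a (a q) * dl a (a q) ≤ S.card := by
      unfold dl
      rw [← Finset.card_product]
      apply Finset.card_le_card
      intro z hz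
      rw [Finset.mem_product, Finset.mem_filter, Finset.mem_filter] at hz
      exact Finset.mem_filter.2 ⟨Finset.mem_univ _, hz.1.2.trans hz.2.2.symm⟩
    calc (dl a (a q) : ℝ) ^ 2 = ((dl a (a q) * dl a (a q) : ℕ) : ℝ) := by push_cast; ring
      _ ≤ S.card := by exact_mod_cast h1
      _ ≤ r := hSr
  refine ⟨ref, T, ⟨rβ, hr2, rκ⟩, ?_, ?_, ?_, ?_⟩
  · -- DecodeOK
    intro i p q hq
    have hg : good a X γ (a (ref q)) (a q) i := by
      by_contra hc
      exact hq ((memT q i).2 hc)
    have h := hg (Em κ ref q) (hsupp q) (hsint q)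
    have h1 := congrFun (congrFun h p) (ref q)
    rw [Em_mul, mul_Em κ ref q (X i) p (hinj q) q rfl] at h1
    exact h1.symm
  · -- card T
    have h1 : T ⊆ Finset.univ.biUnion fun q => (B q).image fun i => (κ q, i) := by
      rintro ⟨c, i⟩ hz
      have hz' := hz
      rw [hT, Finset.mem_filter] at hz'
      obtain ⟨-, q, h1, -⟩ := hz'
      simp only at h1
      subst h1
      refine Finset.mem_biUnion.2 ⟨q, Finset.mem_univ _, Finset.mem_image.2 ⟨i, ?_, rfl⟩⟩
      exact Finset.mem_filter.2 ⟨Finset.mem_univ _, hz⟩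
    have h2 : T.card ≤ ∑ q, (B q).card :=
      (Finset.card_le_card h1).trans (Finset.card_biUnion_le.trans
        (Finset.sum_le_sum fun q _ => Finset.card_image_le))
    calc (T.card : ℝ) ≤ ∑ q, ((B q).card : ℝ) := by exact_mod_cast h2
      _ ≤ ∑ q, 8 * Λ * (dl a (a q) : ℝ) := Finset.sum_le_sum fun q _ => hBc q
      _ = 8 * Λ * S.card := by rw [← Finset.mul_sum, hsumR]
      _ ≤ 8 * Λ * r := mul_le_mul_of_nonneg_left hSr (by positivity)
  · -- card P1
    have h1 : P1 a κ T ⊆ Finset.univ.biUnion fun q =>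
        ((B q) ×ˢ (Finset.univ.filter fun p => a p = a q)).image fun z => (z.1, z.2, q) := by
      rintro ⟨i, p, q⟩ hz
      have hz' := (Finset.mem_filter.1 hz).2
      refine Finset.mem_biUnion.2 ⟨q, Finset.mem_univ _, Finset.mem_image.2 ⟨(i, p), ?_, rfl⟩⟩
      refine Finset.mem_product.2 ⟨Finset.mem_filter.2 ⟨Finset.mem_univ _, hz'.1⟩, ?_⟩
      exact Finset.mem_filter.2 ⟨Finset.mem_univ _, hz'.2⟩
    have h2 : (P1 a κ T).card ≤ ∑ q, (B q).card * dl a (a q) := by
      refine (Finset.card_le_card h1).trans (Finset.card_biUnion_le.trans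
        (Finset.sum_le_sum fun q _ => ?_))
      refine Finset.card_image_le.trans ?_
      rw [Finset.card_product, dl]
    calc ((P1 a κ T).card : ℝ) ≤ ∑ q, ((B q).card : ℝ) * dl a (a q) := by exact_mod_cast h2
      _ ≤ ∑ q, (8 * Λ * Real.sqrt r) * (dl a (a q) : ℝ) := by
          refine Finset.sum_le_sum fun q _ => ?_
          have e1 : ((B q).card : ℝ) ≤ 8 * Λ * Real.sqrt r :=
            (hBc q).trans (mul_le_mul_of_nonneg_left (hdlr q) (by positivity))
          exact mul_le_mul_of_nonneg_right e1 (by positivity)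
      _ = 8 * Λ * Real.sqrt r * S.card := by rw [← Finset.mul_sum, hsumR]
      _ ≤ 8 * Λ * Real.sqrt r * r := mul_le_mul_of_nonneg_left hSr (by positivity)
      _ = 8 * Λ * (r * Real.sqrt r) := by ring
  · -- card P2
    have h1 : P2 κ ref T ⊆ (P1 a κ T).image fun z => (z.1, ref z.2.1, ref z.2.2) := by
      rintro ⟨i, s, t⟩ hz
      obtain ⟨p, q, hk, ht, e1, e2⟩ := (Finset.mem_filter.1 hz).2
      simp only at ht e1 e2
      refine Finset.mem_image.2 ⟨(i, p, q), ?_, ?_⟩
      · exact Finset.mem_filter.2 ⟨Finset.mem_univ _, ht, hA.κa _ _ hk⟩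
      · simp only [e1, e2]
    exact (Finset.card_le_card h1).trans Finset.card_image_le

end Pool.Agent.helper83.FR
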